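import Pool.Agent.Helper42.QD.Stmts

namespace Pool.Agent.Helper42.QD

open Matrix

variable {E : Type} [Field E] [Fintype E] [DecidableEq E]

/-- The matrices of the representation. -/
noncomputable def fj_M (c : FD E) (g : G2 E) : Matrix Eˣ Eˣ ℂ := LinearMap.toMatrix' (c.rho g)

theorem fj_M_mul (c : FD E) (g h : G2 E) : fj_M c (g * h) = fj_M c g * fj_M c h := by
  unfold fj_M
  rw [map_mul, Module.End.mul_eq_comp, LinearMap.toMatrix'_comp]

theorem fj_M_apply (c : FD E) (g : G2 E) (y x : Eˣ) :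
    fj_M c g y x = c.rho g (Pi.single x 1) y := by
  unfold fj_M
  rw [LinearMap.toMatrix'_apply]

theorem fj_rho (c : FD E) (g : G2 E) (f : Eˣ → ℂ) (y : Eˣ) :
    c.rho g f y = ∑ x, fj_M c g y x * f x := by
  have h : c.rho g f = (fj_M c g).mulVec f := by
    unfold fj_M
    rw [LinearMap.toMatrix'_mulVec]
  rw [h]
  rfl

theorem fj_M_nn (c : FD E) (b : E) (y x : Eˣ) :
    fj_M c (nn b) y x = if y = x then c.psi (x * b) else 0 := by
  rw [fj_M_apply, c.rn, Pi.single_apply]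
  split_ifs with h
  · rw [h, mul_one]
  · rw [mul_zero]

theorem fj_M_dg (c : FD E) (a d : Eˣ) (y x : Eˣ) :
    fj_M c (dg (a : E) (d : E)) y x = if y = d * x * a⁻¹ then (c.om d : ℂ) else 0 := by
  rw [fj_M_apply, c.rt, Pi.single_apply]
  have h : d⁻¹ * y * a = x ↔ y = d * x * a⁻¹ := by
    constructor
    · intro h
      rw [← h]
      simp [mul_assoc]
    · intro h
      rw [h]
      simp [mul_assoc]
  by_cases h' : d⁻¹ * y * a = x
  · rw [if_pos h', if_pos (h.1 h'), mul_one]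
  · rw [if_neg h', if_neg (fun h'' => h' (h.2 h'')), mul_zero]

omit [Fintype E] [DecidableEq E] in
theorem fj_unit_coe_ne (a : Eˣ) : (a : E) ≠ 0 := a.ne_zero

omit [Fintype E] [DecidableEq E] in
theorem fj_ww_dg (a : Eˣ) : ww E * dg (a : E) ((1 : Eˣ) : E) = dg ((1 : Eˣ) : E) (a : E) * ww E := by
  have h1 := ww_dg_ww (D := E) (fj_unit_coe_ne a) (fj_unit_coe_ne (1 : Eˣ))
  rw [← h1, mul_assoc, ww_ww, mul_one]

/-- The relation between the entries. -/
theorem fj_K (c : FD E) (y x : Eˣ) :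
    fj_M c (ww E) y x = fj_M c (ww E) (y * x) 1 * ((c.om x : ℂ))⁻¹ := by
  have h := congrFun (congrFun (congrArg (fj_M c) (fj_ww_dg (x⁻¹ : Eˣ))) y) 1
  rw [fj_M_mul, fj_M_mul, Matrix.mul_apply, Matrix.mul_apply] at h
  rw [Finset.sum_eq_single x, Finset.sum_eq_single (x * y)] at h
  · rw [fj_M_dg, fj_M_dg, if_pos (by simp), if_pos (by simp)] at h
    have h2 : ((c.om (x⁻¹ : Eˣ) : ℂˣ) : ℂ) = ((c.om x : ℂ))⁻¹ := by
      rw [map_inv]
      simp
    have h3 : ((c.om (1 : Eˣ) : ℂˣ) : ℂ) = 1 := by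
      rw [map_one]
      simp
    rw [h2, h3, mul_one] at h
    rw [h, mul_comm y x, mul_comm]
  · intro z _ hz
    rw [fj_M_dg, if_neg, zero_mul]
    intro h'
    apply hz
    rw [h']
    simp
  · intro h'
    exact absurd (Finset.mem_univ _) h'
  · intro z _ hz
    rw [fj_M_dg, if_neg, mul_zero]
    intro h'
    apply hz
    rw [h']
    simp
  · intro h'
    exact absurd (Finset.mem_univ _) h'

omit [Fintype E] [DecidableEq E] in
theorem fj_gmap_ww (t : E ≃+* E) : gmap t (ww E) = ww E := by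
  apply ext2 <;> simp [gmap, ww]

omit [Fintype E] [DecidableEq E] in
theorem fj_gmap_dg (t : E ≃+* E) (a d : Eˣ) :
    gmap t (dg (a : E) (d : E)) = dg ((tu t a : Eˣ) : E) ((tu t d : Eˣ) : E) := by
  apply ext2 <;>
    rw [dg_val (fj_unit_coe_ne (tu t a)) (fj_unit_coe_ne (tu t d))] <;>
    simp [gmap, tu, dg_val (fj_unit_coe_ne a) (fj_unit_coe_ne d)]

theorem fj_om_tau (c : FD E) (d : Eˣ) : c.om (tu c.tau d) = c.om d := by
  have h := c.rF (dg ((1 : Eˣ) : E) (d : E)) (fun _ => 1) 1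
  rw [fj_gmap_dg, c.rt, c.rt] at h
  apply Units.ext
  simpa using h

theorem fj_tu_inv (c : FD E) (x : Eˣ) : tu c.tau (tu c.tau x) = x := by
  apply Units.ext
  exact c.tau2 x

theorem fj_j_tau (c : FD E) (x : Eˣ) :
    fj_M c (ww E) (tu c.tau x) 1 = fj_M c (ww E) x 1 := by
  have h := c.rF (ww E) (Pi.single 1 1) x
  rw [fj_gmap_ww] at h
  rw [fj_M_apply, fj_M_apply, ← h]
  have h0 : (fun y : Eˣ => (Pi.single 1 1 : Eˣ → ℂ) (tu c.tau y)) = Pi.single 1 1 := by
    funext y
    rw [Pi.single_apply, Pi.single_apply]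
    have h1 : y = 1 ↔ tu c.tau y = 1 := by
      constructor
      · intro h
        rw [h, map_one]
      · intro h
        rw [← fj_tu_inv c y, h, map_one]
    by_cases h2 : y = 1
    · rw [if_pos h2, if_pos (h1.1 h2)]
    · rw [if_neg h2, if_neg (fun h3 => h2 (h1.2 h3))]
  rw [h0]

theorem fj_om_norm (c : FD E) (x : Eˣ) : ‖(c.om x : ℂ)‖ = 1 := by
  have h : (c.om x : ℂ) ^ Fintype.card Eˣ = 1 := by
    rw [← Units.val_pow_eq_pow_val, ← map_pow, pow_card_eq_one, map_one, Units.val_one]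
  exact Complex.norm_eq_one_of_pow_eq_one h Fintype.card_ne_zero

/-- The averaged form. -/
noncomputable def fj_P (c : FD E) : Matrix Eˣ Eˣ ℂ := ∑ g : G2 E, (fj_M c g)ᴴ * fj_M c g

theorem fj_P_inv (c : FD E) (d : G2 E) : (fj_M c d)ᴴ * fj_P c * fj_M c d = fj_P c := by
  unfold fj_P
  rw [Finset.mul_sum, Finset.sum_mul]
  rw [← Equiv.sum_comp (Equiv.mulRight d) (fun g => (fj_M c g)ᴴ * fj_M c g)]
  refine Finset.sum_congr rfl fun g _ => ?_
  rw [Equiv.coe_mulRight, fj_M_mul, Matrix.conjTranspose_mul]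
  simp only [Matrix.mul_assoc]

theorem fj_P_off (c : FD E) {x x' : Eˣ} (hx : x ≠ x') : fj_P c x x' = 0 := by
  have h0 : (x' : E) - x ≠ 0 := by
    intro h
    exact hx (Units.ext (sub_eq_zero.1 h).symm)
  obtain ⟨b, hb⟩ : ∃ b, c.psi b ≠ 1 := by
    by_contra h
    push Not at h
    apply c.psin
    ext b
    simpa using h b
  have h1 := congrFun (congrFun (fj_P_inv c (nn (((x' : E) - x)⁻¹ * b))) x) x'
  rw [Matrix.mul_apply, Finset.sum_eq_single x', Matrix.mul_apply, Finset.sum_eq_single x,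
    Matrix.conjTranspose_apply, fj_M_nn, fj_M_nn, if_pos rfl, if_pos rfl] at h1
  · have h2 : star (c.psi ((x : E) * (((x' : E) - x)⁻¹ * b))) =
        c.psi (-((x : E) * (((x' : E) - x)⁻¹ * b))) := by
      rw [AddChar.map_neg_eq_conj]
      rfl
    rw [h2] at h1
    have h3 : c.psi (-((x : E) * (((x' : E) - x)⁻¹ * b))) *
        c.psi ((x' : E) * (((x' : E) - x)⁻¹ * b)) = c.psi b := by
      rw [← AddChar.map_add_eq_mul]
      congr 1
      field_simp
      ring
    have h4 : (c.psi b - 1) * fj_P c x x' = 0 := by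
      rw [sub_mul, one_mul, ← h3, sub_eq_zero]
      calc _ = c.psi (-((x : E) * (((x' : E) - x)⁻¹ * b))) * fj_P c x x' *
        c.psi ((x' : E) * (((x' : E) - x)⁻¹ * b)) := by ring
        _ = _ := h1
    rcases mul_eq_zero.1 h4 with h5 | h5
    · exact absurd (sub_eq_zero.1 h5) hb
    · exact h5
  · intro z _ hz
    rw [Matrix.conjTranspose_apply, fj_M_nn, if_neg hz, star_zero, zero_mul]
  · intro h
    exact absurd (Finset.mem_univ _) h
  · intro z _ hz
    rw [fj_M_nn, if_neg hz, mul_zero]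
  · intro h
    exact absurd (Finset.mem_univ _) h

theorem fj_P_diag (c : FD E) (x : Eˣ) : fj_P c x x = fj_P c 1 1 := by
  have h1 := congrFun (congrFun (fj_P_inv c (dg (x : E) ((1 : Eˣ) : E))) x) x
  have hom : (c.om (1 : Eˣ) : ℂ) = 1 := by
    rw [map_one]
    simp
  rw [Matrix.mul_apply, Finset.sum_eq_single 1, Matrix.mul_apply, Finset.sum_eq_single 1,
    Matrix.conjTranspose_apply, fj_M_dg, if_pos (by simp), hom, star_one, one_mul, mul_one] at h1
  · exact h1.symm
  · intro z _ hz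
    rw [Matrix.conjTranspose_apply, fj_M_dg, if_neg (by simpa using hz), star_zero, zero_mul]
  · intro h
    exact absurd (Finset.mem_univ _) h
  · intro z _ hz
    rw [fj_M_dg, if_neg (by simpa using hz), mul_zero]
  · intro h
    exact absurd (Finset.mem_univ _) h

theorem fj_P_ne (c : FD E) : fj_P c 1 1 ≠ 0 := by
  have h1 : fj_P c 1 1 = ((∑ g : G2 E, ∑ y : Eˣ, ‖fj_M c g y 1‖ ^ 2 : ℝ) : ℂ) := by
    unfold fj_P
    rw [Matrix.sum_apply]
    push_cast
    refine Finset.sum_congr rfl fun g _ => ?_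
    rw [Matrix.mul_apply]
    refine Finset.sum_congr rfl fun y _ => ?_
    rw [Matrix.conjTranspose_apply]
    exact Complex.conj_mul' _
  rw [h1]
  norm_cast
  apply ne_of_gt
  refine Finset.sum_pos' (fun g _ => Finset.sum_nonneg fun y _ => sq_nonneg _)
    ⟨1, Finset.mem_univ _, ?_⟩
  refine Finset.sum_pos' (fun y _ => sq_nonneg _) ⟨1, Finset.mem_univ _, ?_⟩
  have h2 : fj_M c 1 1 1 = 1 := by
    rw [fj_M_apply, map_one]
    simp
  rw [h2]
  norm_num

theorem fj_P_eq (c : FD E) : fj_P c = fj_P c 1 1 • (1 : Matrix Eˣ Eˣ ℂ) := by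
  ext x x'
  rw [Matrix.smul_apply, Matrix.one_apply]
  by_cases h : x = x'
  · rw [if_pos h, ← h, fj_P_diag, smul_eq_mul, mul_one]
  · rw [if_neg h, fj_P_off c h, smul_zero]

theorem fj_unit (c : FD E) (g : G2 E) : (fj_M c g)ᴴ * fj_M c g = 1 := by
  have h := fj_P_inv c g
  rw [fj_P_eq, Matrix.mul_smul, Matrix.smul_mul, Matrix.mul_one] at h
  exact smul_right_injective _ (fj_P_ne c) h

theorem st_FJ : ST_FJ := by
  intro E _ _ _ c
  refine ⟨fun y => fj_M c (ww E) y 1, ?_, fun x => fj_j_tau c x, ?_, fun x => fj_om_tau c x,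
    fun x => fj_om_norm c x⟩
  · intro f y
    rw [fj_rho]
    refine Finset.sum_congr rfl fun x _ => ?_
    rw [fj_K]
  · intro x x'
    have h := congrFun (congrFun (fj_unit c (ww E)) x') x
    rw [Matrix.mul_apply, Matrix.one_apply] at h
    have hx : (c.om x : ℂ) ≠ 0 := (c.om x).ne_zero
    have hx' : (c.om x' : ℂ) ≠ 0 := (c.om x').ne_zero
    have h1 : ∀ y, (fj_M c (ww E))ᴴ x' y * fj_M c (ww E) y x =
        (star (((c.om x' : ℂ))⁻¹) * ((c.om x : ℂ))⁻¹) *
        (fj_M c (ww E) (x * y) 1 * (starRingEnd ℂ) (fj_M c (ww E) (x' * y) 1)) := by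
      intro y
      rw [Matrix.conjTranspose_apply, fj_K c y x, fj_K c y x', mul_comm y x, mul_comm y x', star_mul]
      change _ = _ * (_ * star _)
      ring
    simp_rw [h1] at h
    rw [← Finset.mul_sum] at h
    by_cases hxx : x = x'
    · subst hxx
      rw [if_pos rfl] at h
      rw [if_pos rfl]
      have h2 : star (((c.om x : ℂ))⁻¹) * ((c.om x : ℂ))⁻¹ = 1 := by
        have h3 : star (((c.om x : ℂ))⁻¹) * ((c.om x : ℂ))⁻¹ = ((‖((c.om x : ℂ))⁻¹‖ ^ 2 : ℝ) : ℂ) := by
          rw [Complex.ofReal_pow]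
          exact Complex.conj_mul' _
        rw [h3, norm_inv, fj_om_norm]
        simp
      rw [h2, one_mul] at h
      exact h
    · rw [if_neg (fun h' => hxx h'.symm)] at h
      rw [if_neg hxx]
      rcases mul_eq_zero.1 h with h2 | h2
      · exfalso
        rcases mul_eq_zero.1 h2 with h3 | h3
        · rw [star_eq_zero] at h3
          exact inv_ne_zero hx' h3
        · exact inv_ne_zero hx h3
      · exact h2

end Pool.Agent.Helper42.QD
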